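import Mathlib

/-!
# Abel-Jacobi maps of open subvarieties and the standard conjecture D

Everything is over the algebraic numbers, with rational coefficients, all codimensions together.
`WeightCat` is what is used of the category of rational mixed Hodge structures, `CycleTheory` what is
used of Chow groups, Betti cohomology and Abel-Jacobi maps of smooth quasi-projective varieties.
-/

open CategoryTheory CategoryTheory.Limits CategoryTheory.Abelian

universe u v w x

namespace Pool.Agent.Results.MP_537ea0_ag.StandardConjectureD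

/-- An abelian category `M` (rational mixed Hodge structures) with its unit object `one = Q(0)`, the
exact functors `Wneg = W_{-1}` and `W0 = W_0` of the weight filtration, and the class `pol` of
graded-polarizable objects. `split`: a graded-polarizable `E` with `W_{-1} E = 0` has `W_0 E` pure and
polarizable, so every epimorphism from `W_0 E` onto `Q(0)` splits. -/
structure WeightCat (M : Type u) [Category.{v} M] [Abelian M] where
  one : M
  pol : M → Prop
  Wneg : M ⥤ M
  W0 : M ⥤ M
  incl : W0 ⟶ 𝟭 M
  wneg_lim : PreservesFiniteLimits Wneg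
  wneg_colim : PreservesFiniteColimits Wneg
  w0_lim : PreservesFiniteLimits W0
  w0_colim : PreservesFiniteColimits W0
  wneg_one : IsZero (Wneg.obj one)
  w0_one : IsIso (incl.app one)
  split : ∀ E, pol E → IsZero (Wneg.obj E) → ∀ p : W0.obj E ⟶ one, Epi p →
    ∃ s : one ⟶ W0.obj E, s ≫ p = 𝟙 one

/-- Varieties with Chow groups and cohomology. -/
structure Varieties where
  /-- smooth quasi-projective varieties over the algebraic numbers -/
  Var : Type x
  /-- being irreducible and projective -/
  proj : Var → Prop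
  dim : Var → ℕ
  /-- morphisms of varieties -/
  Mor : Var → Var → Type x
  /-- `A V` is the Chow group, of all codimensions `k`, with rational coefficients -/
  A : Var → Type x
  /-- `H V` is the direct sum of the Betti cohomology groups of degree `2k` with coefficients `Q(k)` -/
  H : Var → Type x
  [gA : ∀ V, AddCommGroup (A V)]
  [mA : ∀ V, Module ℚ (A V)]
  [gH : ∀ V, AddCommGroup (H V)]
  [mH : ∀ V, Module ℚ (H V)]
  /-- the cycle class map -/
  cl : ∀ V, A V → H V
  cl_lin : ∀ V, IsLinearMap ℚ (cl V)

attribute [instance] Varieties.gA Varieties.mA Varieties.gH Varieties.mH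

/-- Intersection numbers and Poincare duality on smooth projective varieties. -/
structure Intersection (T : Varieties.{x}) where
  /-- degree of the intersection product -/
  deg : ∀ X, T.A X → T.A X → ℚ
  deg_lin : ∀ X a, IsLinearMap ℚ (deg X a)
  deg_comm : ∀ X a b, deg X a b = deg X b a
  /-- the cup product pairing -/
  degH : ∀ X, T.H X → T.H X → ℚ
  degH_lin : ∀ X a, IsLinearMap ℚ (degH X a)
  degH_comm : ∀ X a b, degH X a b = degH X b a
  deg_cl : ∀ X, T.proj X → ∀ a b, degH X (T.cl X a) (T.cl X b) = deg X a b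
  finH : ∀ X, T.proj X → FiniteDimensional ℚ (T.H X)
  duality : ∀ X, T.proj X → ∀ h, (∀ h', degH X h h' = 0) → h = 0

/-- Pull-back and push-forward along morphisms of smooth projective varieties. -/
structure Functoriality (T : Varieties.{x}) (I : Intersection T) where
  pull : ∀ Z X, T.Mor Z X → T.A X → T.A Z
  push : ∀ Z X, T.Mor Z X → T.A Z → T.A X
  pullH : ∀ Z X, T.Mor Z X → T.H X → T.H Z
  pushH : ∀ Z X, T.Mor Z X → T.H Z → T.H X
  cl_pull : ∀ Z X f, T.proj Z → T.proj X → ∀ a, T.cl Z (pull Z X f a) = pullH Z X f (T.cl X a)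
  cl_push : ∀ Z X f, T.proj Z → T.proj X → ∀ a, T.cl X (push Z X f a) = pushH Z X f (T.cl Z a)
  projection : ∀ Z X f, T.proj Z → T.proj X →
    ∀ a b, I.deg X a (push Z X f b) = I.deg Z (pull Z X f a) b
  projectionH : ∀ Z X f, T.proj Z → T.proj X →
    ∀ a b, I.degH X a (pushH Z X f b) = I.degH Z (pullH Z X f a) b

/-- A finite family of morphisms `f a : Z a ⟶ X` from smooth projective varieties. -/
structure Family (T : Varieties.{x}) (X : T.Var) where
  n : ℕ
  Z : Fin n → T.Var
  proj : ∀ a, T.proj (Z a)
  f : ∀ a, T.Mor (Z a) X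

/-- The family with the single member `f : Z ⟶ X`. -/
def single (T : Varieties.{x}) {X Z : T.Var} (hZ : T.proj Z) (f : T.Mor Z X) : Family T X where
  n := 1
  Z := fun _ => Z
  proj := fun _ => hZ
  f := fun _ => f

/-- Open subvarieties of smooth projective varieties. -/
structure OpenSubvarieties (T : Varieties.{x}) (I : Intersection T) (P : Functoriality T I) where
  /-- the open subvariety of `X` complementary to the union of the images of a finite family -/
  opn : ∀ X, Family T X → T.Var
  res : ∀ X F, T.A X → T.A (opn X F)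
  resH : ∀ X F, T.H X → T.H (opn X F)
  res_lin : ∀ X F, IsLinearMap ℚ (res X F)
  cl_res : ∀ X F a, T.cl (opn X F) (res X F a) = resH X F (T.cl X a)
  res_surj : ∀ X F, T.proj X → Function.Surjective (res X F)
  /-- localization: the classes that vanish on the open subvariety come from the family -/
  res_ker : ∀ X F, T.proj X → ∀ a, res X F a = 0 ↔
    a ∈ Submodule.span ℚ {c | ∃ i b, c = P.push (F.Z i) X (F.f i) b}
  /-- the same in cohomology -/
  resH_ker : ∀ X F, T.proj X → ∀ a, resH X F a = 0 ↔
    a ∈ Submodule.span ℚ {c | ∃ i b, c = P.pushH (F.Z i) X (F.f i) b}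

/-- Abel-Jacobi maps. -/
structure AbelJacobi {M : Type u} [Category.{v} M] [Abelian M] [HasExt.{w} M]
    (W : WeightCat M) (T : Varieties.{x}) (opn : ∀ X, Family T X → T.Var) where
  /-- the mixed Hodge structure on the sum of the cohomology groups of degree `2k-1`, twisted by `k` -/
  odd : T.Var → M
  /-- the part of weight `2k-1` of an open subvariety of `X` is a quotient of that of `X` -/
  odd_res : ∀ X F, T.proj X → ∃ q : odd X ⟶ W.Wneg.obj (odd (opn X F)), Epi q
  /-- the Abel-Jacobi map on homologically trivial classes, with values in the extension group of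
  `Q(0)` by `odd V` -/
  AJ : ∀ V z, T.cl V z = 0 → Ext.{w} W.one (odd V) 1
  /-- its values are classes of extensions by graded-polarizable mixed Hodge structures -/
  AJ_ext : ∀ V z h, ∃ (E : M) (a : odd V ⟶ E) (b : E ⟶ W.one)
    (hab : a ≫ b = 0) (hS : (ShortComplex.mk a b hab).ShortExact), W.pol E ∧ AJ V z h = hS.extClass

/-- Closed embeddings into products of Grassmannians. -/
structure Grassmannians {M : Type u} [Category.{v} M] [Abelian M] (T : Varieties.{x})
    (pull : ∀ Z X, T.Mor Z X → T.A X → T.A Z) (odd : T.Var → M) where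
  /-- closed embeddings -/
  emb : ∀ Z X, T.Mor Z X → Prop
  /-- finite products of Grassmann varieties -/
  grass : T.Var → Prop
  grass_proj : ∀ X, grass X → T.proj X
  /-- they have a cellular decomposition -/
  grass_cl : ∀ X, grass X → Function.Bijective (T.cl X)
  grass_odd : ∀ X, grass X → IsZero (odd X)
  /-- every cycle class is pulled back from a product of Grassmannians by a closed embedding -/
  grass_class : ∀ Z, T.proj Z → ∀ a, ∃ X f c, grass X ∧ emb Z X f ∧ pull Z X f c = a

/-- Chow groups, Betti cohomology, Abel-Jacobi maps. -/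
structure CycleTheory {M : Type u} [Category.{v} M] [Abelian M] [HasExt.{w} M]
    (W : WeightCat M) where
  T : Varieties.{x}
  I : Intersection T
  P : Functoriality T I
  O : OpenSubvarieties T I P
  J : AbelJacobi.{u, v, w, x} W T O.opn
  G : Grassmannians T P.pull J.odd

variable {M : Type u} [Category.{v} M] [Abelian M] [HasExt.{w} M] {W : WeightCat M}

/-- Numerically trivial classes on `Z` are homologically trivial. -/
def NumHom (T : Varieties.{x}) (I : Intersection T) (Z : T.Var) : Prop :=
  ∀ a, (∀ b, I.deg Z a b = 0) → T.cl Z a = 0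

/-- The standard conjecture D for smooth projective varieties of dimension at most `e`. -/
def ConjectureD (T : Varieties.{x}) (I : Intersection T) (e : ℕ) : Prop :=
  ∀ Z, T.proj Z → T.dim Z ≤ e → NumHom T I Z

/-- Injectivity of the Abel-Jacobi maps of `V` in all codimensions. -/
def InjectiveAJ (S : CycleTheory.{u, v, w, x} W) (V : S.T.Var) : Prop :=
  ∀ z z' h h', S.J.AJ V z h = S.J.AJ V z' h' → z = z'

/-! ### The weight argument -/

/-- An extension of `Q(0)` by an object with `W_{-1} = 0` whose total space is graded-polarizable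
splits. -/
theorem extClass_eq_zero (W : WeightCat M) {A E : M} (a : A ⟶ E) (b : E ⟶ W.one) (h : a ≫ b = 0)
    (hS : (ShortComplex.mk a b h).ShortExact) (hE : W.pol E) (hA : IsZero (W.Wneg.obj A)) :
    hS.extClass = 0 := by
  have := W.wneg_lim
  have := W.wneg_colim
  have := W.w0_lim
  have := W.w0_colim
  have := W.w0_one
  have : W.Wneg.Additive := Functor.additive_of_preserves_binary_products _
  have : W.W0.Additive := Functor.additive_of_preserves_binary_products _
  have h1 := hS.map_of_exact W.Wneg
  have hzE : IsZero (W.Wneg.obj E) :=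
    h1.exact.isZero_of_both_zeros (hA.eq_of_src _ _) (W.wneg_one.eq_of_tgt _ _)
  have h2 := hS.map_of_exact W.W0
  have : Epi (W.W0.map b) := h2.epi_g
  obtain ⟨s, hs⟩ := W.split E hE hzE (W.W0.map b ≫ W.incl.app W.one) inferInstance
  have hsec : (s ≫ W.incl.app E) ≫ b = 𝟙 W.one := by
    rw [Category.assoc]
    have := W.incl.naturality b
    simp only [Functor.id_map] at this
    rw [← this]
    exact hs
  have h3 := hS.comp_extClass
  have h4 : (Ext.mk₀ (s ≫ W.incl.app E)).comp ((Ext.mk₀ b).comp hS.extClass (zero_add 1))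
      (zero_add 1) = hS.extClass := by
    rw [← Ext.comp_assoc_of_second_deg_zero, Ext.mk₀_comp_mk₀, hsec, Ext.mk₀_id_comp]
  rw [← h4]
  have h5 : (Ext.mk₀ b).comp hS.extClass (zero_add 1) = 0 := h3
  rw [h5, Ext.comp_zero]

/-- The Abel-Jacobi map of an open subvariety of `X` is zero if `X` has no odd cohomology. -/
theorem AJ_eq_zero (S : CycleTheory.{u, v, w, x} W) (X : S.T.Var) (F : Family S.T X)
    (hX : S.T.proj X) (h0 : IsZero (S.J.odd X)) (z) (hz) : S.J.AJ (S.O.opn X F) z hz = 0 := by
  obtain ⟨E, a, b, h, hS, hE, hz'⟩ := S.J.AJ_ext (S.O.opn X F) z hz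
  obtain ⟨q, hq⟩ := S.J.odd_res X F hX
  rw [hz']
  refine extClass_eq_zero W a b h hS hE ?_
  have := hq
  exact IsZero.of_epi q h0

/-! ### Duality -/

/-- If numerical and homological equivalence agree on `X`, subspaces of the space of algebraic classes
are cut out by algebraic classes. -/
theorem mem_map_of_numHom (T : Varieties.{x}) (I : Intersection T) (X : T.Var) (hX : T.proj X)
    (hN : NumHom T I X) (S : Submodule ℚ (T.A X)) (y : T.A X)
    (hy : ∀ c : T.A X, (∀ s ∈ S, I.deg X c s = 0) → I.deg X c y = 0) :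
    ∃ s ∈ S, T.cl X s = T.cl X y := by
  have := I.finH X hX
  -- functionals on the space of algebraic classes given by algebraic classes
  by_contra hno
  let cl : T.A X →ₗ[ℚ] T.H X := (T.cl_lin X).mk' _
  have hcl : ∀ a, cl a = T.cl X a := fun _ => rfl
  let dH : T.H X →ₗ[ℚ] T.H X →ₗ[ℚ] ℚ := LinearMap.mk₂ ℚ (I.degH X)
    (fun a b c => by rw [I.degH_comm, (I.degH_lin X c).map_add, I.degH_comm X c a, I.degH_comm X c b])
    (fun r a c => by rw [I.degH_comm, (I.degH_lin X c).map_smul, I.degH_comm X c a])
    (fun a b c => (I.degH_lin X a).map_add b c) (fun r a c => (I.degH_lin X a).map_smul r c)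
  have hdH : ∀ a b, dH a b = I.degH X a b := fun _ _ => rfl
  let R : Submodule ℚ (T.H X) := LinearMap.range cl
  let S' : Submodule ℚ R := (S.map cl).comap R.subtype
  let y' : R := ⟨cl y, LinearMap.mem_range_self _ y⟩
  have hy' : y' ∉ S' := by
    rintro ⟨s, hs, hsy⟩
    exact hno ⟨s, hs, hsy⟩
  obtain ⟨φ, hφ1, hφ2⟩ := Submodule.exists_le_ker_of_notMem hy'
  let Ψ : T.A X →ₗ[ℚ] Module.Dual ℚ R := (LinearMap.lcomp ℚ ℚ R.subtype) ∘ₗ dH ∘ₗ cl
  have hΨ : ∀ c (b : T.A X), Ψ c ⟨cl b, LinearMap.mem_range_self _ b⟩ = I.deg X c b :=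
    fun c b => I.deg_cl X hX c b
  have hsurj : LinearMap.range Ψ = ⊤ := by
    by_contra hne
    have hco : (LinearMap.range Ψ).dualCoannihilator ≠ ⊥ := by
      intro hbot
      apply hne
      have h1 := Subspace.dualCoannihilator_dualAnnihilator_eq (W := LinearMap.range Ψ)
      rw [← h1, hbot, Submodule.dualAnnihilator_bot]
    obtain ⟨r, hr, hr0⟩ := Submodule.exists_mem_ne_zero_of_ne_bot hco
    apply hr0
    obtain ⟨_, b, rfl⟩ := r
    refine Subtype.ext ?_
    refine hN b fun c => ?_
    rw [I.deg_comm, ← hΨ c b]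
    exact (Submodule.mem_dualCoannihilator _).1 hr (Ψ c) (LinearMap.mem_range_self _ c)
  obtain ⟨c, hc⟩ : φ ∈ LinearMap.range Ψ := hsurj ▸ Submodule.mem_top
  apply hφ1
  rw [← hc, hΨ c y]
  refine hy c fun s hs => ?_
  rw [← hΨ c s, hc]
  exact hφ2 (show (⟨cl s, _⟩ : R) ∈ S' from Submodule.mem_map_of_mem hs)

/-! ### From conjecture D to Abel-Jacobi maps -/

theorem injective_of_conjectureD (S : CycleTheory.{u, v, w, x} W) (e : ℕ)
    (hD : ConjectureD S.T S.I e) (X : S.T.Var) (F : Family S.T X) (hX : S.T.proj X)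
    (hodd : IsZero (S.J.odd X)) (hN : NumHom S.T S.I X) (hAJ : InjectiveAJ S X)
    (hF : ∀ a, S.T.dim (F.Z a) ≤ e) : InjectiveAJ S (S.O.opn X F) := by
  -- homologically trivial classes on `X` are zero
  have hcl : ∀ b : S.T.A X, S.T.cl X b = 0 → b = 0 := by
    intro b hb
    have hsub : ∀ γ : Ext.{w} W.one (S.J.odd X) 1, γ = 0 := fun γ => by
      rw [← Ext.comp_mk₀_id γ, hodd.eq_of_src (𝟙 (S.J.odd X)) 0, Ext.mk₀_zero, Ext.comp_zero]
    exact hAJ b 0 hb (S.T.cl_lin X).map_zero ((hsub _).trans (hsub _).symm)
  suffices main : ∀ z, S.T.cl (S.O.opn X F) z = 0 → z = 0 by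
    intro z z' h h' _
    rw [main z h, main z' h']
  intro z hz
  obtain ⟨y, rfl⟩ := S.O.res_surj X F hX z
  rw [S.O.cl_res, S.O.resH_ker X F hX] at hz
  obtain ⟨y', hy', hyy⟩ := mem_map_of_numHom S.T S.I X hX hN
      (Submodule.span ℚ {c | ∃ i b, c = S.P.push (F.Z i) X (F.f i) b}) y (by
    intro c hc0
    -- the pull-backs of `c` are numerically trivial, hence homologically trivial
    have hnum : ∀ a, S.T.cl (F.Z a) (S.P.pull (F.Z a) X (F.f a) c) = 0 := by
      intro a
      refine hD (F.Z a) (F.proj a) (hF a) _ fun b => ?_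
      rw [← S.P.projection _ _ (F.f a) (F.proj a) hX]
      exact hc0 _ (Submodule.subset_span ⟨a, b, rfl⟩)
    have hle : Submodule.span ℚ {c | ∃ i b, c = S.P.pushH (F.Z i) X (F.f i) b} ≤
        LinearMap.ker ((S.I.degH_lin X (S.T.cl X c)).mk' _) := by
      rw [Submodule.span_le]
      rintro _ ⟨a, h, rfl⟩
      change S.I.degH X (S.T.cl X c) (S.P.pushH (F.Z a) X (F.f a) h) = 0
      rw [S.P.projectionH _ _ (F.f a) (F.proj a) hX, ← S.P.cl_pull _ _ (F.f a) (F.proj a) hX,
        hnum a, S.I.degH_comm, (S.I.degH_lin _ _).map_zero]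
    rw [← S.I.deg_cl X hX]
    exact hle hz)
  have : y = y' := by
    rw [← sub_eq_zero]
    exact hcl _ (by rw [(S.T.cl_lin X).map_sub, hyy, sub_self])
  rw [this]
  exact (S.O.res_ker X F hX _).2 hy'

/-! ### From Abel-Jacobi maps to conjecture D -/

theorem conjectureD_of_injective (S : CycleTheory.{u, v, w, x} W) (e : ℕ)
    (h : ∀ Z X hZ f, S.T.dim Z ≤ e → S.G.grass X → S.G.emb Z X f →
      InjectiveAJ S (S.O.opn X (single S.T hZ f))) : ConjectureD S.T S.I e := by
  intro Z hZ hdim a hnum
  obtain ⟨X, f, c, hXg, hf, rfl⟩ := S.G.grass_class Z hZ a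
  have hX := S.G.grass_proj X hXg
  refine S.I.duality Z hZ _ fun h' => ?_
  obtain ⟨y, hy⟩ := (S.G.grass_cl X hXg).2 (S.P.pushH Z X f h')
  set F := single S.T hZ f with hF
  have hker : S.T.cl (S.O.opn X F) (S.O.res X F y) = 0 := by
    rw [S.O.cl_res, hy, S.O.resH_ker X F hX]
    exact Submodule.subset_span ⟨(0 : Fin 1), h', rfl⟩
  have hzero : S.O.res X F y = 0 := by
    refine h Z X hZ f hdim hXg hf _ 0 hker (S.T.cl_lin _).map_zero ?_
    rw [AJ_eq_zero S X F hX (S.G.grass_odd X hXg), AJ_eq_zero S X F hX (S.G.grass_odd X hXg)]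
  rw [S.O.res_ker X F hX] at hzero
  have hle : Submodule.span ℚ {c | ∃ i b, c = S.P.push (F.Z i) X (F.f i) b} ≤
      LinearMap.ker ((S.I.deg_lin X c).mk' _) := by
    rw [Submodule.span_le]
    rintro _ ⟨a, b, rfl⟩
    exact (S.P.projection Z X f hZ hX c b).trans (hnum b)
  have h4 : S.I.deg X c y = 0 := hle hzero
  rw [S.P.cl_pull Z X f hZ hX, ← S.P.projectionH Z X f hZ hX, ← hy, S.I.deg_cl X hX]
  exact h4

theorem numHom_grass (S : CycleTheory.{u, v, w, x} W) (X : S.T.Var) (hX : S.G.grass X) :
    NumHom S.T S.I X := by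
  intro a ha
  have hXp := S.G.grass_proj X hX
  refine S.I.duality X hXp _ fun h' => ?_
  obtain ⟨c, rfl⟩ := (S.G.grass_cl X hX).2 h'
  rw [S.I.deg_cl X hXp]
  exact ha c

/-- **Theorem.** For every `e` the following are equivalent: the standard conjecture D for smooth
projective varieties of dimension at most `e`; for every smooth projective `X` without odd cohomology
on which numerical and homological equivalence agree and whose Abel-Jacobi maps are injective, the
Abel-Jacobi maps of every open subvariety of `X` with complement of dimension at most `e` are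
injective; the Abel-Jacobi maps of the complement of every smooth closed subvariety of dimension at
most `e` of a product of Grassmannians are injective. -/
theorem result (S : CycleTheory.{u, v, w, x} W) (e : ℕ) :
    List.TFAE [ConjectureD S.T S.I e,
      ∀ X F, S.T.proj X → IsZero (S.J.odd X) → NumHom S.T S.I X → InjectiveAJ S X →
        (∀ a, S.T.dim (F.Z a) ≤ e) → InjectiveAJ S (S.O.opn X F),
      ∀ Z X hZ f, S.T.dim Z ≤ e → S.G.grass X → S.G.emb Z X f →
        InjectiveAJ S (S.O.opn X (single S.T hZ f))] := by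
  tfae_have 1 → 2 := fun h X F => injective_of_conjectureD S e h X F
  tfae_have 2 → 3 := by
    intro h Z X hZ f hd hX _
    refine h X _ (S.G.grass_proj X hX) (S.G.grass_odd X hX) (numHom_grass S X hX) ?_ fun _ => hd
    intro z z' hz hz' _
    exact (S.G.grass_cl X hX).1 (hz.trans hz'.symm)
  tfae_have 3 → 1 := conjectureD_of_injective S e
  tfae_finish

end Pool.Agent.Results.MP_537ea0_ag.StandardConjectureD
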